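import Mathlib
import Pool.Agent.R516.ZI

/-!
# Coefficients of weight 3/2 cusp forms and the zeros of the twisted L-functions

Let `f` be a Hecke eigenform of weight `3/2` with cuspidal Shimura lift `F`. By Waldspurger's theorem
`|a_f(r)|^2 ≤ C r^{1/2} L(1/2, F ⊗ χ_r)` for squarefree `r`, and `L(s, F ⊗ χ_r)` is a standard L-function
of degree two with conductor at most `C r^2`. Hence, for every finite set `S` of zeros of
`L(s, F ⊗ χ_r)` in the critical strip, uniformly in `r`,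

`|a_f(r)| ≤ K r^{1/2 + ε} ∏ |tan (π/2 (ρ - 1/2))|^{m(ρ) / 2}`,

and `|a_f(r)| ≤ K r^{1/4 + β/2 + ε}` if `∑ m(ρ) sin (π Re ρ) / cosh (π Im ρ) ≥ (1/2 - β) log r`.
-/

set_option autoImplicit false

namespace Pool.Agent.Results.MP_af11aa_nt.ZeroCriterion

open Pool.Agent.Results.MP_cf4097_nt.ZeroForm

/-- For all `θ < 1/2`, `A`, `C ≥ 1`, `ε > 0` there is `K` such that for every standard L-function
of degree two with parameters `θ`, `A`, every `r ≥ 1` with analytic conductor `Q(1/2) ≤ C r^2`, every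
complex number `a` with `|a|^2 ≤ C r^{1/2} |L(1/2)|` (Waldspurger's formula for `a = a_f(r)`), and
every finite set `S` of points of the closed critical strip:
1. `|a| ≤ K r^{1/2 + ε} (∏ |tan (π/2 (ρ - 1/2))|^{m(ρ)})^{1/2}`;
2. for every real `β` with `(1/2 - β) log r ≤ ∑ m(ρ) sin (π Re ρ) / cosh (π Im ρ)`:
   `|a| ≤ K r^{1/4 + β/2 + ε}`. -/
theorem result (θ A C ε : ℝ) (hθ : θ < 1 / 2) (hC : 1 ≤ C) (hε : 0 < ε) :
    ∃ K : ℝ, ∀ D : StdL 2, D.IsStandard θ A → ∀ r : ℝ, 1 ≤ r → D.cond (1 / 2) ≤ C * r ^ 2 →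
      ∀ a : ℂ, ‖a‖ ^ 2 ≤ C * r ^ (1 / 2 : ℝ) * ‖D.L (1 / 2)‖ →
      ∀ S : Finset ℂ, (∀ ρ ∈ S, 0 ≤ ρ.re ∧ ρ.re ≤ 1) →
        ‖a‖ ≤ K * r ^ (1 / 2 + ε) * Real.sqrt (∏ ρ ∈ S,
          ‖Complex.tan (Real.pi / 2 * (ρ - 1 / 2))‖ ^ analyticOrderNatAt D.L ρ) ∧
        ∀ β : ℝ, (1 / 2 - β) * Real.log r ≤ ∑ ρ ∈ S, analyticOrderNatAt D.L ρ *
            (Real.sin (Real.pi * ρ.re) / Real.cosh (Real.pi * ρ.im)) →
          ‖a‖ ≤ K * r ^ (1 / 4 + β / 2 + ε) := by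
  obtain ⟨K, hK⟩ := Pool.Agent.R516.ZI.crit 2 θ A C (2 * ε) hθ hC (by linarith)
  refine ⟨Real.sqrt (C * |K|), fun D H r hr hQ a ha S hS => ?_⟩
  obtain ⟨h1, h2⟩ := hK D H r hr hQ S hS
  have hr0 : 0 < r := by linarith
  have hC0 : 0 ≤ C := by linarith
  set Pr : ℝ := ∏ ρ ∈ S, ‖Complex.tan (Real.pi / 2 * (ρ - 1 / 2))‖ ^ analyticOrderNatAt D.L ρ
    with hPr
  have hPr0 : 0 ≤ Pr := Finset.prod_nonneg fun _ _ => by positivity
  have key : ∀ y E : ℝ, 0 ≤ E → ‖D.L (1 / 2)‖ ≤ |K| * r ^ y * E →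
      ‖a‖ ≤ Real.sqrt (C * |K|) * r ^ (1 / 4 + y / 2) * Real.sqrt E := by
    intro y E hE hb
    have e1 : ‖a‖ ^ 2 ≤ (Real.sqrt (C * |K|) * r ^ (1 / 4 + y / 2) * Real.sqrt E) ^ 2 := by
      have e2 : (Real.sqrt (C * |K|) * r ^ (1 / 4 + y / 2) * Real.sqrt E) ^ 2 =
          C * r ^ (1 / 2 : ℝ) * (|K| * r ^ y * E) := by
        rw [mul_pow, mul_pow, Real.sq_sqrt (by positivity), Real.sq_sqrt hE,
          ← Real.rpow_natCast (r ^ (1 / 4 + y / 2)) 2, ← Real.rpow_mul hr0.le]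
        have e3 : (1 / 4 + y / 2) * ((2 : ℕ) : ℝ) = 1 / 2 + y := by push_cast; ring
        rw [e3, Real.rpow_add hr0]
        ring
      rw [e2]
      refine ha.trans ?_
      gcongr
    exact abs_le_of_sq_le_sq' e1 (by positivity) |>.2
  have hKK : ∀ z : ℝ, K * r ^ z ≤ |K| * r ^ z := fun z => by
    have := Real.rpow_nonneg hr0.le z
    have := le_abs_self K
    gcongr
  constructor
  · have h3 : ‖D.L (1 / 2)‖ ≤ |K| * r ^ (1 / 2 + 2 * ε) * Pr := by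
      refine h1.trans ?_
      have := hKK (1 / 2 + 2 * ε)
      gcongr
    have h4 := key _ _ hPr0 h3
    have e5 : 1 / 4 + (1 / 2 + 2 * ε) / 2 = 1 / 2 + ε := by ring
    rw [e5] at h4
    exact h4
  · intro β hβ
    have h3 : ‖D.L (1 / 2)‖ ≤ |K| * r ^ (β + 2 * ε) * 1 := by
      rw [mul_one]
      exact (h2 β (Or.inr hβ)).trans (hKK _)
    have h4 := key _ _ zero_le_one h3
    rw [Real.sqrt_one, mul_one] at h4
    have e5 : 1 / 4 + (β + 2 * ε) / 2 = 1 / 4 + β / 2 + ε := by ring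
    rw [e5] at h4
    exact h4

end Pool.Agent.Results.MP_af11aa_nt.ZeroCriterion
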